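import Mathlib
import Pool.Agent.H74R5.Uniform
import Pool.Agent.H74R5.DatumC
import Pool.Agent.H74R5.Pos

set_option autoImplicit false

/-! # The corrected density for almost all `D b² m ^ k`, for every even exponent `k`, uniformly in `k`

Let `D ≠ 1` be a squarefree integer, `D ≡ 1 mod 4`, and let `b ≠ 0`; every integer with squarefree part
`D` is of the form `D b²`.  Let `r` be an odd squarefree number, write `P r n x` for the number of primes
`p ≤ x` with `gcd (p - 1, r) = 1` modulo which `n` is a primitive root, and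

`δ D r = (1 - μ(|D|) ∏_{q ∣ D, q ∣ r} 1 / (q - 2) ∏_{q ∣ D, q ∤ r} 1 / (q² - q - 1)) c_r`,
`c_r = ∏_{l ∣ r} (1 - 1 / (l - 1)) ∏_{l ∤ r} (1 - 1 / (l (l - 1)))`.

For almost all `m` the base `D b² m ^ k` satisfies `P r (D b² m ^ k) x = (δ D r + o(1)) π(x)`, for every
even exponent `k` all of whose odd prime factors divide `r`; the exceptional set has at most `N ^ θ`
elements `m ≤ N`, simultaneously for all `x` of a super-polynomial range, and everything is uniform in `k`.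

For `r = 1` the exponents are `2, 4, 8, …`, all primes are counted, and `δ D 1` is the density of Q1. -/

namespace Pool.Agent.Results.MP_991e92_nt.AllExponents

open Finset Classical
open Pool.Agent.H74R5 (cst cstD dEvenC Adapted cst_pos cstD_pos)

/-- the number of primes `p ≤ x` with `gcd (p - 1, r) = 1` modulo which `n` is a primitive root -/
noncomputable def P (r : ℕ) (n : ℤ) (x : ℕ) : ℕ :=
  ((Finset.range (x + 1)).filter (fun p : ℕ => p.Prime ∧ Nat.Coprime (p - 1) r ∧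
    orderOf (n : ZMod p) = p - 1)).card

/-- `∏_{l ∣ r} (1 - 1 / (l - 1)) ∏_{l ∤ r} (1 - 1 / (l (l - 1)))` -/
noncomputable def c (r : ℕ) : ℝ :=
  (∏ l ∈ r.primeFactors, (1 - 1 / ((l : ℝ) - 1))) *
    ∏' p : Nat.Primes, (if (p : ℕ) ∣ r then 1 else 1 - 1 / (((p : ℕ) : ℝ) * (((p : ℕ) : ℝ) - 1)))

/-- the density, with its correction factor -/
noncomputable def δ (D : ℤ) (r : ℕ) : ℝ :=
  (1 - ((ArithmeticFunction.moebius D.natAbs : ℤ) : ℝ) * ∏ q ∈ D.natAbs.primeFactors,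
    (if q ∣ r then 1 / ((q : ℝ) - 2) else 1 / ((q : ℝ) ^ 2 - (q : ℝ) - 1))) * c r

theorem result (θ C : ℝ) (hθ : 1 / 2 < θ) (hθ1 : θ < 1) (hC : 1 < C)
    (hCθ : θ * (1 - θ) < C * (2 * θ - 1)) :
    ∃ κ : ℝ, 0 < κ ∧ ∀ D : ℤ, Squarefree D → D % 4 = 1 → D ≠ 1 → ∀ b : ℤ, b ≠ 0 →
      ∀ r : ℕ, Squarefree r → Odd r → 0 < δ D r ∧ ∀ ε : ℝ, 0 < ε →
      ∃ N₀ : ℕ, ∀ N : ℕ, N₀ ≤ N → ∀ k : ℕ, 1 ≤ k → 2 ∣ k →
        (∀ l : ℕ, l.Prime → l ∣ k → l ≠ 2 → l ∣ r) →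
        (((Finset.Icc 1 N).filter (fun m : ℕ => ∃ x : ℕ, (N : ℝ) ^ C ≤ x ∧
          (x : ℝ) ≤ Real.exp ((Real.log N) ^ (1 + κ)) ∧
          ε * (Nat.primeCounting x : ℝ) <
            |(P r (D * b ^ 2 * (m : ℤ) ^ k) x : ℝ) - δ D r * (Nat.primeCounting x : ℝ)|)).card : ℝ)
          ≤ (N : ℝ) ^ θ := by
  obtain ⟨κ, hκ, hall⟩ := Pool.Agent.H74R5.uniform θ C hθ hθ1 hC hCθ
  refine ⟨κ, hκ, fun D hD h4 hD1 b hb r hr hro => ⟨cstD_pos D hD h4 hD1 r (cst_pos r hro),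
    fun ε hε => ?_⟩⟩
  let F : {k : ℕ // 0 < k ∧ 2 ∣ k ∧ Adapted r k} → Pool.Agent.H771R4.SE.Dat := fun k =>
    dEvenC D hD h4 hD1 b hb r hr hro k.1 k.2.1 k.2.2.1 k.2.2.2
  have h2a : Adapted r 2 := by
    intro l hl hl2 hne
    exact absurd ((Nat.prime_dvd_prime_iff_eq hl Nat.prime_two).1 hl2) hne
  obtain ⟨N₀, hN₀⟩ := hall _ F ⟨2, by norm_num, dvd_rfl, h2a⟩ (fun _ => rfl) (fun _ => rfl)
    (fun _ => rfl) ε hε
  refine ⟨N₀, fun N hN k hk hk2 hkr => ?_⟩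
  refine le_trans (Nat.cast_le.2 (Finset.card_le_card ?_)) (hN₀ N hN ⟨k, hk, hk2, hkr⟩)
  intro m hm
  rw [Finset.mem_filter] at hm
  unfold Pool.Agent.H771R4.SE.badY
  rw [Finset.mem_filter]
  obtain ⟨h2, x, h3, h4', h5⟩ := hm
  refine ⟨h2, x, h3, h4', ?_⟩
  have e : P r (D * b ^ 2 * (m : ℤ) ^ k) x = Pool.Agent.H771R4.SE.cntE (F ⟨k, hk, hk2, hkr⟩) m x := by
    unfold P Pool.Agent.H771R4.SE.cntE
    apply congrArg Finset.card
    apply Finset.filter_congr_decidable _ _ _ |>.symm.trans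
    apply Finset.filter_congr
    intro p _
    simp only [F, Pool.Agent.H74R5.dEvenC, Int.cast_mul, Int.cast_pow, Int.cast_natCast]
  rw [e] at h5
  exact h5

end Pool.Agent.Results.MP_991e92_nt.AllExponents
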