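import Mathlib
import Pool.Agent.H730R2.AA.Grid
import Pool.Agent.H730R2.AA.OneX
import Pool.Agent.H730R2.AA.MainTerm

set_option autoImplicit false

/-! # The corrected density at every `x` from a fixed bound on, for almost all integers with a given
squarefree part

Let `D ≠ 1` be a squarefree integer, `D ≡ 1 mod 4`, and let
`δ(D) = (1 - μ(|D|) ∏_{q ∣ D} 1 / (q² - q - 1)) A`, where `A` is Artin's constant.  Write `P(n, x)` for
the number of primes `p ≤ x` modulo which `n` is a primitive root.  For all `ε, η > 0` there is `X` such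
that for all large `N`, all but at most `η N` of the integers `m ≤ N` satisfy
`|P(D m², x) - δ(D) π(x)| ≤ ε π(x)` for EVERY `x` with `X ≤ x ≤ exp ((log N)² / (64 log log N))`.

Library: helper730 (large sieve for the family `D m²`, main term with the correction factor);
assembled by helper981. -/

namespace Pool.Agent.Results.MP_991e92_nt.EveryLargeX

open Finset Classical

/-- the number of primes `p ≤ x` modulo which `n` is a primitive root -/
noncomputable def P (n : ℤ) (x : ℕ) : ℕ :=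
  ((Finset.range (x + 1)).filter (fun p : ℕ => p.Prime ∧ orderOf (n : ZMod p) = p - 1)).card

/-- the density of Q1 for integers with squarefree part `D`:
`(1 - μ(|D|) ∏_{q ∣ D} 1 / (q² - q - 1)) ∏_p (1 - 1 / (p (p - 1)))` -/
noncomputable def δ (D : ℤ) : ℝ :=
  (1 - ((ArithmeticFunction.moebius D.natAbs : ℤ) : ℝ) *
      ∏ q ∈ D.natAbs.primeFactors, (1 / ((q : ℝ) ^ 2 - (q : ℝ) - 1))) *
    ∏' p : Nat.Primes, (1 - 1 / (((p : ℕ) : ℝ) * (((p : ℕ) : ℝ) - 1)))

theorem result (D : ℤ) (hD : Squarefree D) (hD4 : D % 4 = 1) (hD1 : D ≠ 1) (ε η : ℝ) (hε : 0 < ε)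
    (hη : 0 < η) :
    ∃ X N₀ : ℕ, ∀ N : ℕ, N₀ ≤ N →
      (((Finset.Icc 1 N).filter (fun m : ℕ => ∃ x : ℕ, X ≤ x ∧
        (x : ℝ) ≤ Real.exp ((Real.log N) ^ 2 / (64 * Real.log (Real.log N))) ∧
        ε * (Nat.primeCounting x : ℝ) <
          |(P (D * (m : ℤ) ^ 2) x : ℝ) - δ D * (Nat.primeCounting x : ℝ)|)).card : ℝ) ≤
        η * N := by
  obtain ⟨X, hX⟩ := Pool.Agent.H730R2.AA.all_x_of D ε η hε hη
    (Pool.Agent.H730R2.AA.main_lim D hD hD4 hD1)
    (fun ε' hε' => Pool.Agent.H730R2.AA.one_x D hD.ne_zero ε' hε')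
  obtain ⟨N₀, hN₀⟩ := Filter.eventually_atTop.1 hX
  refine ⟨X, N₀, fun N hN => ?_⟩
  refine le_trans (le_of_eq ?_) (hN₀ N hN)
  unfold Pool.Agent.H730R2.AA.badAll Pool.Agent.H730R2.AA.cnt P δ Pool.Agent.H730R2.AA.dens
  rfl

end Pool.Agent.Results.MP_991e92_nt.EveryLargeX
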